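import Pool.Agent.H.MP_cbfbdc_gt.TwoBalls

set_option autoImplicit false

namespace Pool.Agent.H.MP_cbfbdc_gt

open MeasureTheory Filter Topology Set Real

lemma ballVol_eq {m : ℕ} (hm : 1 ≤ m) : ballVol m = √π ^ m / Gamma (m / 2 + 1) := by
  have : Nonempty (Fin m) := ⟨⟨0, by omega⟩⟩
  have hG : 0 < Gamma ((m : ℝ) / 2 + 1) := Gamma_pos_of_pos (by positivity)
  rw [ballVol, EuclideanSpace.volume_ball, Fintype.card_fin, ENNReal.ofReal_one, one_pow, one_mul,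
    ENNReal.toReal_ofReal (by positivity)]

lemma ballVol_pos {m : ℕ} (hm : 1 ≤ m) : 0 < ballVol m := by
  rw [ballVol_eq hm]
  have hG : 0 < Gamma ((m : ℝ) / 2 + 1) := Gamma_pos_of_pos (by positivity)
  have : 0 < π := pi_pos
  positivity

/-- Log-convexity: `Γ(x)^2 ≤ Γ(x+1/2)^2 / (x - 1/2)`. -/
lemma Gamma_sq_le {x : ℝ} (hx : 1 / 2 < x) :
    (x - 1 / 2) * Gamma x ^ 2 ≤ Gamma (x + 1 / 2) ^ 2 := by
  have h := Real.Gamma_mul_add_mul_le_rpow_Gamma_mul_rpow_Gamma (s := x - 1 / 2) (t := x + 1 / 2)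
    (a := 1 / 2) (b := 1 / 2) (by linarith) (by linarith) (by norm_num) (by norm_num) (by norm_num)
  have e1 : (1 / 2 : ℝ) * (x - 1 / 2) + 1 / 2 * (x + 1 / 2) = x := by ring
  rw [e1, ← Real.sqrt_eq_rpow, ← Real.sqrt_eq_rpow] at h
  have hg1 : 0 < Gamma (x - 1 / 2) := Gamma_pos_of_pos (by linarith)
  have hg2 : 0 < Gamma (x + 1 / 2) := Gamma_pos_of_pos (by linarith)
  have hg0 : 0 < Gamma x := Gamma_pos_of_pos (by linarith)
  have h2 : Gamma x ^ 2 ≤ Gamma (x - 1 / 2) * Gamma (x + 1 / 2) := by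
    calc Gamma x ^ 2 ≤ (√(Gamma (x - 1 / 2)) * √(Gamma (x + 1 / 2))) ^ 2 :=
          pow_le_pow_left₀ hg0.le h 2
      _ = Gamma (x - 1 / 2) * Gamma (x + 1 / 2) := by
          rw [mul_pow, Real.sq_sqrt hg1.le, Real.sq_sqrt hg2.le]
  have h3 : Gamma (x + 1 / 2) = (x - 1 / 2) * Gamma (x - 1 / 2) := by
    have := Gamma_add_one (s := x - 1 / 2) (by linarith)
    rw [← this]
    congr 1
    ring
  calc (x - 1 / 2) * Gamma x ^ 2 ≤ (x - 1 / 2) * (Gamma (x - 1 / 2) * Gamma (x + 1 / 2)) := by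
        refine mul_le_mul_of_nonneg_left h2 (by linarith)
    _ = Gamma (x + 1 / 2) ^ 2 := by rw [← mul_assoc, ← h3]; ring

lemma ballVol_succ_sq_le {m : ℕ} (hm : 1 ≤ m) :
    (m + 1) * ballVol (m + 1) ^ 2 ≤ 2 * π * ballVol m ^ 2 := by
  rw [ballVol_eq hm, ballVol_eq (by omega : 1 ≤ m + 1)]
  have hm' : (1 : ℝ) ≤ m := by exact_mod_cast hm
  have h := Gamma_sq_le (x := (m : ℝ) / 2 + 1) (by linarith)
  have e1 : ((m + 1 : ℕ) : ℝ) / 2 + 1 = (m : ℝ) / 2 + 1 + 1 / 2 := by push_cast; ring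
  rw [e1]
  have hg1 : 0 < Gamma ((m : ℝ) / 2 + 1) := Gamma_pos_of_pos (by positivity)
  have hg2 : 0 < Gamma ((m : ℝ) / 2 + 1 + 1 / 2) := Gamma_pos_of_pos (by positivity)
  have hpi : (√π) ^ 2 = π := Real.sq_sqrt pi_pos.le
  rw [div_pow, div_pow, mul_div_assoc', mul_div_assoc', div_le_div_iff₀ (by positivity) (by positivity)]
  have e2 : ((√π) ^ (m + 1)) ^ 2 = π * ((√π) ^ m) ^ 2 := by
    calc ((√π) ^ (m + 1)) ^ 2 = (√π) ^ 2 * ((√π) ^ m) ^ 2 := by ring
      _ = π * ((√π) ^ m) ^ 2 := by rw [hpi]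
  rw [e2]
  have h4 : 0 ≤ π * ((√π) ^ m) ^ 2 := by have := pi_pos; positivity
  have e3 : (m : ℝ) / 2 + 1 - 1 / 2 = (m + 1) / 2 := by ring
  rw [e3] at h
  calc ((m : ℝ) + 1) * (π * ((√π) ^ m) ^ 2) * Gamma ((m : ℝ) / 2 + 1) ^ 2
      = 2 * (π * ((√π) ^ m) ^ 2) * ((m + 1) / 2 * Gamma ((m : ℝ) / 2 + 1) ^ 2) := by ring
    _ ≤ 2 * (π * ((√π) ^ m) ^ 2) * Gamma ((m : ℝ) / 2 + 1 + 1 / 2) ^ 2 := by gcongr
    _ = 2 * π * ((√π) ^ m) ^ 2 * Gamma ((m : ℝ) / 2 + 1 + 1 / 2) ^ 2 := by ring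

lemma succ_pow_le (m : ℕ) (hm : 1 ≤ m) : ((m : ℝ) + 1) ^ m ≤ exp 1 * (m : ℝ) ^ m := by
  have hm' : (0 : ℝ) < m := by exact_mod_cast hm
  have h1 : 1 + 1 / (m : ℝ) ≤ exp (1 / m) := by
    have := add_one_le_exp (1 / (m : ℝ)); linarith
  have h2 : (1 + 1 / (m : ℝ)) ^ m ≤ exp 1 := by
    calc (1 + 1 / (m : ℝ)) ^ m ≤ exp (1 / m) ^ m := pow_le_pow_left₀ (by positivity) h1 m
      _ = exp 1 := by rw [← exp_nat_mul]; congr 1; field_simp
  calc ((m : ℝ) + 1) ^ m = ((1 + 1 / m) * m) ^ m := by congr 1; field_simp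
    _ = (1 + 1 / (m : ℝ)) ^ m * m ^ m := by rw [mul_pow]
    _ ≤ exp 1 * (m : ℝ) ^ m := by gcongr

/-- The decreasing step, from the general bounds. -/
lemma step_general {d m : ℕ} (hm : 1 ≤ m)
    (h : 2 * π * exp 1 ^ 2 * (m + 1) < 4 * (d : ℝ) ^ 2) :
    ballVol (m + 1) * ((m : ℝ) + 1) ^ (m + 1) < 2 * d * (ballVol m * (m : ℝ) ^ m) := by
  have hm' : (0 : ℝ) < m := by exact_mod_cast hm
  have h1 := ballVol_succ_sq_le hm
  have h2 := succ_pow_le m hm
  have hb0 := ballVol_pos hm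
  have hb1 := ballVol_pos (by omega : 1 ≤ m + 1)
  have hpos : 0 ≤ 2 * (d : ℝ) * (ballVol m * (m : ℝ) ^ m) := by positivity
  refine lt_of_pow_lt_pow_left₀ 2 hpos ?_
  calc (ballVol (m + 1) * ((m : ℝ) + 1) ^ (m + 1)) ^ 2
      = (((m + 1 : ℝ)) * ballVol (m + 1) ^ 2) * ((m + 1) * (((m : ℝ) + 1) ^ m) ^ 2) := by ring
    _ ≤ (2 * π * ballVol m ^ 2) * ((m + 1) * (exp 1 * (m : ℝ) ^ m) ^ 2) := by
        gcongr
    _ = (2 * π * exp 1 ^ 2 * (m + 1)) * (ballVol m * (m : ℝ) ^ m) ^ 2 := by ring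
    _ < (4 * (d : ℝ) ^ 2) * (ballVol m * (m : ℝ) ^ m) ^ 2 := by
        refine mul_lt_mul_of_pos_right h ?_
        positivity
    _ = (2 * d * (ballVol m * (m : ℝ) ^ m)) ^ 2 := by ring

lemma ballVol_even (k : ℕ) (hk : 1 ≤ k) : ballVol (2 * k) = π ^ k / (Nat.factorial k) := by
  rw [ballVol_eq (by omega), pow_mul, Real.sq_sqrt pi_pos.le]
  congr 1
  have : ((2 * k : ℕ) : ℝ) / 2 + 1 = (k : ℝ) + 1 := by push_cast; ring
  rw [this, Real.Gamma_nat_eq_factorial]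

lemma ballVol_odd (k : ℕ) : ballVol (2 * k + 1)
    = 2 ^ (k + 1) * π ^ k / (Nat.doubleFactorial (2 * k + 1)) := by
  rw [ballVol_eq (by omega), pow_succ, pow_mul, Real.sq_sqrt pi_pos.le]
  have : ((2 * k + 1 : ℕ) : ℝ) / 2 + 1 = (k : ℝ) + 1 + 1 / 2 := by push_cast; ring
  rw [this, Real.Gamma_nat_add_one_add_half]
  have h1 : 0 < √π := Real.sqrt_pos.mpr pi_pos
  have h2 : (0 : ℝ) < (Nat.doubleFactorial (2 * k + 1) : ℕ) := by
    exact_mod_cast Nat.doubleFactorial_pos _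
  field_simp

lemma const_bound : 2 * π * exp 1 ^ 2 < 46.5 := by
  have h1 : exp 1 < 2.7182818286 := exp_one_lt_d9
  have h2 : π < 3.1416 := pi_lt_d4
  have h0 : 0 < exp 1 := exp_pos 1
  have h3 : exp 1 ^ 2 < 7.38906 := by nlinarith
  have := pi_pos
  nlinarith

lemma step {d m : ℕ} (hd : 10 ≤ d) (hm : 1 ≤ m) (hmd : m + 1 ≤ d) :
    ballVol (m + 1) * ((m : ℝ) + 1) ^ (m + 1) < 2 * d * (ballVol m * (m : ℝ) ^ m) := by
  have hc := const_bound
  by_cases h12 : 12 ≤ d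
  · refine step_general hm ?_
    have h1 : ((m : ℝ) + 1) ≤ d := by exact_mod_cast hmd
    have h2 : (12 : ℝ) ≤ d := by exact_mod_cast h12
    have h3 : 0 ≤ 2 * π * exp 1 ^ 2 := by have := pi_pos; positivity
    calc 2 * π * exp 1 ^ 2 * ((m : ℝ) + 1) ≤ 46.5 * d := by
          refine mul_le_mul hc.le h1 (by positivity) (by norm_num)
      _ < 4 * (d : ℝ) ^ 2 := by nlinarith
  · have hpi := pi_pos
    have e10 : ballVol 10 = π ^ 5 / 120 := by
      have := ballVol_even 5 (by norm_num)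
      simpa [Nat.factorial] using this
    have e8 : ballVol 8 = π ^ 4 / 24 := by
      have := ballVol_even 4 (by norm_num)
      simpa [Nat.factorial] using this
    have e9 : ballVol 9 = 32 * π ^ 4 / 945 := by
      have := ballVol_odd 4
      norm_num [Nat.doubleFactorial] at this
      exact this
    have e11 : ballVol 11 = 64 * π ^ 5 / 10395 := by
      have := ballVol_odd 5
      norm_num [Nat.doubleFactorial] at this
      exact this
    have hd' : d = 10 ∨ d = 11 := by omega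
    rcases hd' with rfl | rfl
    · by_cases h8 : m + 1 ≤ 8
      · refine step_general hm ?_
        have h1 : ((m : ℝ) + 1) ≤ 8 := by exact_mod_cast h8
        calc 2 * π * exp 1 ^ 2 * ((m : ℝ) + 1) ≤ 46.5 * 8 := by
              refine mul_le_mul hc.le h1 (by positivity) (by norm_num)
          _ < _ := by norm_num
      · have hm' : m = 8 ∨ m = 9 := by omega
        rcases hm' with rfl | rfl
        · rw [e8, show (8 + 1 : ℕ) = 9 from rfl, e9]
          norm_num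
          have : 0 < π ^ 4 := by positivity
          nlinarith
        · rw [e9, show (9 + 1 : ℕ) = 10 from rfl, e10]
          norm_num
          have h2 : π < 3.1416 := pi_lt_d4
          have : 0 < π ^ 4 := by positivity
          have h5 : π ^ 5 < 3.1416 * π ^ 4 := by
            calc π ^ 5 = π * π ^ 4 := by ring
              _ < 3.1416 * π ^ 4 := by gcongr
          nlinarith
    · by_cases h8 : m + 1 ≤ 10
      · refine step_general hm ?_
        have h1 : ((m : ℝ) + 1) ≤ 10 := by exact_mod_cast h8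
        calc 2 * π * exp 1 ^ 2 * ((m : ℝ) + 1) ≤ 46.5 * 10 := by
              refine mul_le_mul hc.le h1 (by positivity) (by norm_num)
          _ < _ := by norm_num
      · have hm' : m = 10 := by omega
        subst hm'
        rw [e10, show (10 + 1 : ℕ) = 11 from rfl, e11]
        norm_num
        have : 0 < π ^ 5 := by positivity
        nlinarith

/-- The main inequality: for `1 ≤ j < d`, `d ≥ 10`, one has `(2d)^j ω_d < 2^d j^j ω_j`. -/
lemma main_ineq {d j : ℕ} (hd : 10 ≤ d) (hj : 1 ≤ j) (hjd : j < d) :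
    (2 * (d : ℝ)) ^ j * ballVol d < 2 ^ d * ((j : ℝ) ^ j * ballVol j) := by
  have hd0 : (0 : ℝ) < d := by
    have : 0 < d := by omega
    exact_mod_cast this
  -- decreasing sequence
  have key : ∀ n : ℕ, j + 1 ≤ n → n ≤ d →
      ballVol n * (n : ℝ) ^ n / (2 * (d : ℝ)) ^ n < ballVol j * (j : ℝ) ^ j / (2 * (d : ℝ)) ^ j := by
    intro n hn
    induction n, hn using Nat.le_induction with
    | base =>
      intro h1
      have h2 := step hd hj h1
      rw [div_lt_div_iff₀ (by positivity) (by positivity), pow_succ (2 * (d : ℝ)) j]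
      push_cast
      calc ballVol (j + 1) * ((j : ℝ) + 1) ^ (j + 1) * (2 * (d : ℝ)) ^ j
          < 2 * d * (ballVol j * (j : ℝ) ^ j) * (2 * (d : ℝ)) ^ j := by gcongr
        _ = ballVol j * (j : ℝ) ^ j * ((2 * (d : ℝ)) ^ j * (2 * d)) := by ring
    | succ n hn ih =>
      intro h1
      refine lt_trans ?_ (ih (by omega))
      have h2 := step hd (by omega : 1 ≤ n) h1
      rw [div_lt_div_iff₀ (by positivity) (by positivity), pow_succ (2 * (d : ℝ)) n]
      push_cast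
      calc ballVol (n + 1) * ((n : ℝ) + 1) ^ (n + 1) * (2 * (d : ℝ)) ^ n
          < 2 * d * (ballVol n * (n : ℝ) ^ n) * (2 * (d : ℝ)) ^ n := by gcongr
        _ = ballVol n * (n : ℝ) ^ n * ((2 * (d : ℝ)) ^ n * (2 * d)) := by ring
  have h := key d (by omega) le_rfl
  rw [mul_pow 2 (d : ℝ) d] at h
  have e1 : ballVol d * (d : ℝ) ^ d / (2 ^ d * (d : ℝ) ^ d) = ballVol d / 2 ^ d := by
    field_simp
  rw [e1, div_lt_div_iff₀ (by positivity) (by positivity)] at h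
  linarith [mul_comm ((2 * (d : ℝ)) ^ j) (ballVol d),
    mul_comm (ballVol j * (j : ℝ) ^ j) ((2 : ℝ) ^ d), mul_comm (ballVol j) ((j : ℝ) ^ j),
    congrArg (fun t => 2 ^ d * t) (mul_comm (ballVol j) ((j : ℝ) ^ j))]

end Pool.Agent.H.MP_cbfbdc_gt
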