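import Pool.Agent.H.MP_cbfbdc_gt.Ineq

set_option autoImplicit false

namespace Pool.Agent.H.MP_cbfbdc_gt

open MeasureTheory Filter Topology Set Real

/-- volume of the two balls of radii `1/2 - t` and `s` -/
noncomputable def bet (d : ℕ) (s t : ℝ) : ℝ := ballVol d * ((1 / 2 - t) ^ d + s ^ d)

/-- area of the two spheres of radii `1/2 - t` and `s` -/
noncomputable def are (d : ℕ) (s t : ℝ) : ℝ :=
  d * ballVol d * ((1 / 2 - t) ^ (d - 1) + s ^ (d - 1))

/-- comparison with the tubes with `j`-dimensional cross sections -/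
noncomputable def cmp (d j : ℕ) (s t : ℝ) : ℝ :=
  (j : ℝ) ^ j * ballVol j * bet d s t ^ (j - 1) - are d s t ^ j

lemma cmp_zero_pos {d j : ℕ} (hd : 10 ≤ d) (hj : 1 ≤ j) (hjd : j < d) : 0 < cmp d j 0 0 := by
  have hb := ballVol_pos (by omega : 1 ≤ d)
  have h := main_ineq hd hj hjd
  have e1 : bet d 0 0 = ballVol d / 2 ^ d := by
    unfold bet
    rw [sub_zero, zero_pow (by omega), add_zero, one_div, inv_pow]
    rfl
  have e2 : are d 0 0 = 2 * d * (ballVol d / 2 ^ d) := by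
    unfold are
    rw [sub_zero, zero_pow (by omega : d - 1 ≠ 0), add_zero, one_div, inv_pow]
    obtain ⟨k, rfl⟩ : ∃ k, d = k + 1 := ⟨d - 1, by omega⟩
    rw [Nat.add_sub_cancel, pow_succ]
    field_simp
  unfold cmp
  rw [e1, e2, sub_pos]
  have hB : 0 < ballVol d / 2 ^ d := by positivity
  obtain ⟨i, rfl⟩ : ∃ i, j = i + 1 := ⟨j - 1, by omega⟩
  rw [Nat.add_sub_cancel, mul_pow (2 * (d : ℝ)) (ballVol d / 2 ^ d) (i + 1),
    pow_succ (ballVol d / 2 ^ d) i]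
  have h2 : (2 * (d : ℝ)) ^ (i + 1) * (ballVol d / 2 ^ d)
      < ((i + 1 : ℕ) : ℝ) ^ (i + 1) * ballVol (i + 1) := by
    rw [← mul_div_assoc, div_lt_iff₀ (by positivity)]
    linarith
  calc (2 * (d : ℝ)) ^ (i + 1) * ((ballVol d / 2 ^ d) ^ i * (ballVol d / 2 ^ d))
      = (2 * (d : ℝ)) ^ (i + 1) * (ballVol d / 2 ^ d) * (ballVol d / 2 ^ d) ^ i := by ring
    _ < ((i + 1 : ℕ) : ℝ) ^ (i + 1) * ballVol (i + 1) * (ballVol d / 2 ^ d) ^ i := by gcongr

lemma bet_zero_lt {d : ℕ} (hd : 10 ≤ d) : bet d 0 0 < 1 / 2 := by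
  have h := main_ineq hd (le_refl 1) (by omega : 1 < d)
  have hb1 : ballVol 1 = 2 := by
    have := ballVol_odd 0
    norm_num [Nat.doubleFactorial] at this
    exact this
  rw [hb1] at h
  norm_num at h
  unfold bet
  rw [sub_zero, zero_pow (by omega), add_zero, one_div, inv_pow, ← div_eq_mul_inv,
    div_lt_iff₀ (by positivity)]
  have h10 : (10 : ℝ) ≤ d := by exact_mod_cast hd
  have hb := ballVol_pos (by omega : 1 ≤ d)
  nlinarith [pow_pos (two_pos : (0 : ℝ) < 2) d]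

lemma exists_params {d : ℕ} (hd : 10 ≤ d) : ∃ s t : ℝ, 0 < s ∧ s < 1 / 4 ∧ 0 < t ∧ t < 1 / 4 ∧
    bet d s t < 1 / 2 ∧ ballVol d * (1 / 2) ^ d < bet d s t ∧
    ∀ j ∈ Finset.Ico 1 d, 0 < cmp d j s t := by
  have hb := ballVol_pos (by omega : 1 ≤ d)
  -- choose s
  have h1 : ∀ j ∈ Finset.Ico 1 d, ∀ᶠ s : ℝ in 𝓝 0, 0 < cmp d j s 0 := by
    intro j hj
    rw [Finset.mem_Ico] at hj
    have hc : Continuous fun s : ℝ => cmp d j s 0 := by
      unfold cmp bet are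
      fun_prop
    exact (hc.tendsto 0).eventually_const_lt (cmp_zero_pos hd hj.1 hj.2)
  have h2 : ∀ᶠ s : ℝ in 𝓝 0, bet d s 0 < 1 / 2 := by
    have hc : Continuous fun s : ℝ => bet d s 0 := by
      unfold bet
      fun_prop
    exact (hc.tendsto 0).eventually_lt_const (bet_zero_lt hd)
  have h3 := (Finset.eventually_all (Finset.Ico 1 d)).mpr h1
  have h4 : ∀ᶠ s : ℝ in 𝓝[>] 0, s < 1 / 4 :=
    nhdsWithin_le_nhds (Iio_mem_nhds (by norm_num))
  obtain ⟨s, ⟨⟨hs1, hs2⟩, hs3⟩, hs4⟩ :=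
    ((((h3.filter_mono nhdsWithin_le_nhds).and (h2.filter_mono nhdsWithin_le_nhds)).and h4).and
      (eventually_mem_nhdsWithin (a := (0 : ℝ)) (s := Ioi 0))).exists
  rw [mem_Ioi] at hs4
  -- choose t
  have k1 : ∀ j ∈ Finset.Ico 1 d, ∀ᶠ t : ℝ in 𝓝 0, 0 < cmp d j s t := by
    intro j hj
    have hc : Continuous fun t : ℝ => cmp d j s t := by
      unfold cmp bet are
      fun_prop
    exact (hc.tendsto 0).eventually_const_lt (hs1 j hj)
  have hcb : Continuous fun t : ℝ => bet d s t := by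
    unfold bet
    fun_prop
  have k2 : ∀ᶠ t : ℝ in 𝓝 0, bet d s t < 1 / 2 := (hcb.tendsto 0).eventually_lt_const hs2
  have k3 : ∀ᶠ t : ℝ in 𝓝 0, ballVol d * (1 / 2) ^ d < bet d s t := by
    refine (hcb.tendsto 0).eventually_const_lt ?_
    unfold bet
    rw [sub_zero]
    refine mul_lt_mul_of_pos_left ?_ hb
    have : 0 < s ^ d := by positivity
    linarith
  have k4 := (Finset.eventually_all (Finset.Ico 1 d)).mpr k1
  have k5 : ∀ᶠ t : ℝ in 𝓝[>] 0, t < 1 / 4 :=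
    nhdsWithin_le_nhds (Iio_mem_nhds (by norm_num))
  obtain ⟨t, ⟨⟨⟨ht1, ht2⟩, ht3⟩, ht4⟩, ht5⟩ :=
    (((((k4.filter_mono nhdsWithin_le_nhds).and (k2.filter_mono nhdsWithin_le_nhds)).and
      (k3.filter_mono nhdsWithin_le_nhds)).and k5).and
      (eventually_mem_nhdsWithin (a := (0 : ℝ)) (s := Ioi 0))).exists
  rw [mem_Ioi] at ht5
  exact ⟨s, t, hs4, hs3, ht5, ht4, ht2, ht3, ht1⟩

theorem disproof (d : ℕ) (hd : 10 ≤ d) :
    ∃ β : ℝ, 0 < β ∧ β ≤ 1 / 2 ∧ ∃ (D : Set (UnitAddTorus (Fin d))) (A : ℝ),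
      SmoothDomain D ∧ volume D = ENNReal.ofReal β ∧ HasBoundaryVolume D A ∧
      ∀ k < d, ∀ r : ℝ, 0 < r → r < 1 / 2 → ballVol (d - k) * r ^ (d - k) = β →
        A < (d - k : ℕ) * ballVol (d - k) * r ^ (d - k - 1) := by
  obtain ⟨s, t, hs0, hs, ht0, ht, h1, h2, h3⟩ := exists_params hd
  obtain ⟨c₁, c₂, hc⟩ := exists_far (by omega : 5 ≤ d)
  have hb := ballVol_pos (by omega : 1 ≤ d)
  have a1 : 0 < 1 / 2 - t := by linarith
  have a2 : 1 / 2 - t < 1 / 2 := by linarith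
  have a3 : s < 1 / 2 := by linarith
  have a4 : 1 / 2 - t + s < flatDist c₁ c₂ := by linarith
  refine ⟨bet d s t, ?_, h1.le, twoBalls c₁ c₂ (1 / 2 - t) s, are d s t,
    smoothDomain_twoBalls c₁ c₂ a1 a2 hs0 a3 a4, volume_twoBalls c₁ c₂ a1 a2 hs0 a3 a4,
    hasBoundaryVolume_twoBalls c₁ c₂ a1 a2 hs0 a3 a4, ?_⟩
  · refine lt_trans ?_ h2
    positivity
  · intro k hk r hr0 hr hβ
    rcases Nat.eq_zero_or_pos k with rfl | hk0
    · exfalso
      rw [Nat.sub_zero] at hβ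
      rw [← hβ] at h2
      have : r ^ d ≤ (1 / 2) ^ d := pow_le_pow_left₀ hr0.le hr.le d
      have := mul_le_mul_of_nonneg_left this hb.le
      linarith
    · set j := d - k with hj
      have hj1 : 1 ≤ j := by omega
      have hj2 : j < d := by omega
      have h4 := h3 j (Finset.mem_Ico.mpr ⟨hj1, hj2⟩)
      unfold cmp at h4
      have hbj := ballVol_pos hj1
      have hj0 : (0 : ℝ) < j := by exact_mod_cast hj1
      refine lt_of_pow_lt_pow_left₀ j (by positivity) ?_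
      have h5 : ((j : ℝ) * ballVol j * r ^ (j - 1)) ^ j
          = (j : ℝ) ^ j * ballVol j * bet d s t ^ (j - 1) := by
        rw [← hβ]
        obtain ⟨i, hi⟩ : ∃ i, j = i + 1 := ⟨j - 1, by omega⟩
        rw [hi, Nat.add_sub_cancel]
        rw [mul_pow, mul_pow, mul_pow, ← pow_mul, ← pow_mul, pow_succ (ballVol (i + 1)) i]
        ring
      rw [h5]
      linarith

end Pool.Agent.H.MP_cbfbdc_gt
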