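import Mathlib

set_option autoImplicit false

namespace Pool.Agent.H.MP_cbfbdc_gt

open MeasureTheory Filter Topology Set

/-- The covering map `ℝ^d → T^d = ℝ^d / ℤ^d`. -/
def proj {d : ℕ} (x : EuclideanSpace ℝ (Fin d)) : UnitAddTorus (Fin d) :=
  fun i => (x i : UnitAddCircle)

/-- The distance of the flat torus `T^d = ℝ^d / ℤ^d`: here `‖x i - y i‖` is the distance of the
`i`-th coordinates in the circle `ℝ / ℤ` of length one. -/
noncomputable def flatDist {d : ℕ} (x y : UnitAddTorus (Fin d)) : ℝ :=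
  √(∑ i, ‖x i - y i‖ ^ 2)

/-- A compact region of `T^d` with smooth boundary: near every boundary point, in the coordinates
given by the covering map `ℝ^d → T^d`, it is the sublevel set `{f ≤ 0}` of a smooth function `f`
whose differential does not vanish at the point. -/
def SmoothDomain {d : ℕ} (D : Set (UnitAddTorus (Fin d))) : Prop :=
  IsCompact D ∧ ∀ x : EuclideanSpace ℝ (Fin d), proj x ∈ frontier D →
    ∃ f : EuclideanSpace ℝ (Fin d) → ℝ, ContDiff ℝ (⊤ : ℕ∞) f ∧ f x = 0 ∧ fderiv ℝ f x ≠ 0 ∧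
      ∀ᶠ y in 𝓝 x, (proj y ∈ D ↔ f y ≤ 0)

/-- `A` is the `(d-1)`-dimensional volume of the boundary of `D`, computed as Minkowski content:
`A` is the limit, as `ε → 0+`, of the volume of the `ε`-neighbourhood of the boundary divided by
`2 ε`. -/
def HasBoundaryVolume {d : ℕ} (D : Set (UnitAddTorus (Fin d))) (A : ℝ) : Prop :=
  Tendsto (fun ε : ℝ => (volume {x | ∃ y ∈ frontier D, flatDist x y ≤ ε}).toReal / (2 * ε))
    (𝓝[>] 0) (𝓝 A)

/-- `ω_m`: the volume of the unit ball of `ℝ^m`. -/
noncomputable def ballVol (m : ℕ) : ℝ :=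
  (volume (Metric.ball (0 : EuclideanSpace ℝ (Fin m)) 1)).toReal

/-! ### The flat distance -/

variable {d : ℕ}

lemma flatDist_eq (x y : UnitAddTorus (Fin d)) :
    flatDist x y = dist (WithLp.toLp 2 x : PiLp 2 (fun _ : Fin d => UnitAddCircle))
      (WithLp.toLp 2 y) := by
  rw [PiLp.dist_eq_of_L2]
  simp only [flatDist, dist_eq_norm]

lemma flatDist_triangle (x y z : UnitAddTorus (Fin d)) :
    flatDist x z ≤ flatDist x y + flatDist y z := by
  simp only [flatDist_eq]
  exact dist_triangle _ _ _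

lemma flatDist_comm (x y : UnitAddTorus (Fin d)) : flatDist x y = flatDist y x := by
  simp only [flatDist_eq]
  exact dist_comm _ _

lemma flatDist_nonneg (x y : UnitAddTorus (Fin d)) : 0 ≤ flatDist x y := Real.sqrt_nonneg _

lemma continuous_flatDist (c : UnitAddTorus (Fin d)) : Continuous fun x => flatDist x c := by
  unfold flatDist
  fun_prop

lemma continuous_proj : Continuous (proj : EuclideanSpace ℝ (Fin d) → UnitAddTorus (Fin d)) := by
  unfold proj
  refine continuous_pi fun i => ?_
  exact (AddCircle.continuous_mk' 1).comp (by fun_prop)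

lemma norm_coe_le (a : ℝ) : ‖(a : UnitAddCircle)‖ ≤ |a| := by
  rw [UnitAddCircle.norm_eq]
  have := round_le a 0
  simpa using this

lemma norm_coe_of_le {a : ℝ} (ha : |a| ≤ 1 / 2) : ‖(a : UnitAddCircle)‖ = |a| := by
  rw [AddCircle.norm_coe_eq_abs_iff (p := (1 : ℝ)) one_ne_zero]
  simpa using ha

lemma flatDist_proj_le (x y : EuclideanSpace ℝ (Fin d)) :
    flatDist (proj x) (proj y) ≤ ‖x - y‖ := by
  rw [EuclideanSpace.norm_eq]
  refine Real.sqrt_le_sqrt (Finset.sum_le_sum fun i _ => ?_)
  refine pow_le_pow_left₀ (norm_nonneg _) ?_ 2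
  have : proj x i - proj y i = ((x i - y i : ℝ) : UnitAddCircle) := rfl
  rw [this]
  exact norm_coe_le _

lemma flatDist_proj_eq {x y : EuclideanSpace ℝ (Fin d)} (h : ∀ i, |x i - y i| ≤ 1 / 2) :
    flatDist (proj x) (proj y) = ‖x - y‖ := by
  rw [EuclideanSpace.norm_eq]
  unfold flatDist
  congr 1
  refine Finset.sum_congr rfl fun i _ => ?_
  have : proj x i - proj y i = ((x i - y i : ℝ) : UnitAddCircle) := rfl
  rw [this, norm_coe_of_le (h i)]
  rfl

lemma exists_lift (z : UnitAddTorus (Fin d)) (c : EuclideanSpace ℝ (Fin d)) :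
    ∃ x : EuclideanSpace ℝ (Fin d), proj x = z ∧ ∀ i, |x i - c i| ≤ 1 / 2 := by
  choose a ha using fun i => QuotientAddGroup.mk_surjective (z i)
  refine ⟨WithLp.toLp 2 fun i => a i - round (a i - c i), ?_, fun i => ?_⟩
  · funext i
    change ((a i - round (a i - c i) : ℝ) : UnitAddCircle) = z i
    rw [← ha i]
    have h : ((round (a i - c i) : ℝ) : UnitAddCircle) = 0 := by
      rw [AddCircle.coe_eq_zero_iff]
      exact ⟨round (a i - c i), by simp⟩
    rw [AddCircle.coe_sub, h, sub_zero]
  · change |a i - round (a i - c i) - c i| ≤ 1 / 2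
    have : a i - round (a i - c i) - c i = (a i - c i) - round (a i - c i) := by ring
    rw [this]
    exact abs_sub_round _

lemma abs_coord_le (v : EuclideanSpace ℝ (Fin d)) (i : Fin d) : |v i| ≤ ‖v‖ := by
  have := PiLp.norm_apply_le v i
  simpa using this

lemma flatDist_proj_eq_of_norm {x y : EuclideanSpace ℝ (Fin d)} (h : ‖x - y‖ ≤ 1 / 2) :
    flatDist (proj x) (proj y) = ‖x - y‖ := by
  refine flatDist_proj_eq fun i => ?_
  have := abs_coord_le (x - y) i
  exact le_trans this h

/-! ### Volume of rotationally symmetric sets -/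

lemma volume_torus {A : Set (UnitAddTorus (Fin d))} (hA : MeasurableSet A) :
    volume A = volume (((fun (x : Fin d → ℝ) i => (x i : UnitAddCircle)) ⁻¹' A) ∩
      Set.pi univ (fun _ => Ioc (-(1 / 2) : ℝ) (-(1 / 2) + 1))) := by
  have h := measurePreserving_pi (fun _ : Fin d => volume.restrict (Ioc (-(1 / 2) : ℝ) (-(1 / 2) + 1)))
    (fun _ : Fin d => (volume : Measure UnitAddCircle))
    (fun _ => UnitAddCircle.measurePreserving_mk (-(1 / 2)))
  rw [← Measure.restrict_pi_pi] at h
  have h2 := h.measure_preimage hA.nullMeasurableSet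
  rw [Measure.restrict_apply (h.measurable hA)] at h2
  exact h2.symm

lemma volume_radial {B : Set ℝ} (hB : MeasurableSet B) (hB2 : ∀ b ∈ B, b < 1 / 2)
    (c : UnitAddTorus (Fin d)) :
    volume {x | flatDist x c ∈ B} = volume {y : EuclideanSpace ℝ (Fin d) | ‖y‖ ∈ B} := by
  have hmeas : ∀ c : UnitAddTorus (Fin d), MeasurableSet {x | flatDist x c ∈ B} := fun c =>
    (continuous_flatDist c).measurable hB
  have h1 : {x | flatDist x c ∈ B} = (fun x => x + (-c)) ⁻¹' {x | flatDist x 0 ∈ B} := by
    ext x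
    simp only [mem_ofPred_eq, mem_preimage]
    have : flatDist x c = flatDist (x + -c) 0 := by
      unfold flatDist
      simp [sub_eq_add_neg]
    rw [this]
  rw [h1, measure_preimage_add_right, volume_torus (hmeas 0)]
  have h5 : volume {y : EuclideanSpace ℝ (Fin d) | ‖y‖ ∈ B}
      = volume (@WithLp.toLp 2 (Fin d → ℝ) ⁻¹' {y : EuclideanSpace ℝ (Fin d) | ‖y‖ ∈ B}) :=
    ((PiLp.volume_preserving_toLp (Fin d)).measure_preimage
      ((continuous_norm.measurable hB).nullMeasurableSet)).symm
  rw [h5]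
  congr 1
  ext x
  simp only [mem_inter_iff, mem_preimage, mem_ofPred_eq, mem_univ_pi]
  have hz : (0 : UnitAddTorus (Fin d)) = proj (0 : EuclideanSpace ℝ (Fin d)) := by
    funext i; simp [proj]
  have hx : (fun i => (x i : UnitAddCircle)) = proj (WithLp.toLp 2 x) := rfl
  rw [hz, hx]
  constructor
  · rintro ⟨h2, h3⟩
    rw [flatDist_proj_eq] at h2
    · rwa [sub_zero] at h2
    · intro i
      have := h3 i
      rw [mem_Ioc] at this
      change |x i - 0| ≤ 1 / 2
      rw [sub_zero, abs_le]
      constructor <;> linarith [this.1, this.2]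
  · intro h2
    have h3 := hB2 _ h2
    have h4 : ∀ i, |x i| < 1 / 2 := fun i =>
      lt_of_le_of_lt (abs_coord_le (WithLp.toLp 2 x) i) h3
    constructor
    · rw [flatDist_proj_eq, sub_zero]
      · exact h2
      · intro i
        change |x i - 0| ≤ 1 / 2
        rw [sub_zero]
        exact (h4 i).le
    · intro i
      have := abs_lt.mp (h4 i)
      exact ⟨by linarith [this.1], by linarith [this.2]⟩

lemma ballVol_nonneg (m : ℕ) : 0 ≤ ballVol m := ENNReal.toReal_nonneg

lemma volume_ball_eq {r : ℝ} (hr : 0 < r) :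
    volume (Metric.ball (0 : EuclideanSpace ℝ (Fin d)) r) = ENNReal.ofReal (ballVol d * r ^ d) := by
  rw [Measure.addHaar_ball_of_pos _ _ hr, finrank_euclideanSpace_fin, ballVol,
    mul_comm, ENNReal.ofReal_mul (by positivity), ENNReal.ofReal_toReal measure_ball_lt_top.ne]

lemma volume_closedBall_eq {r : ℝ} (hr : 0 ≤ r) :
    volume (Metric.closedBall (0 : EuclideanSpace ℝ (Fin d)) r)
      = ENNReal.ofReal (ballVol d * r ^ d) := by
  rw [Measure.addHaar_closedBall _ _ hr, finrank_euclideanSpace_fin, ballVol,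
    mul_comm, ENNReal.ofReal_mul (by positivity), ENNReal.ofReal_toReal measure_ball_lt_top.ne]

/-- The volume of a ball of radius less than `1/2` of the torus. -/
lemma volume_flatBall (c : UnitAddTorus (Fin d)) {r : ℝ} (hr : 0 ≤ r) (hr2 : r < 1 / 2) :
    volume {x | flatDist x c ≤ r} = ENNReal.ofReal (ballVol d * r ^ d) := by
  have h := volume_radial (d := d) (B := Iic r) measurableSet_Iic
    (fun b hb => lt_of_le_of_lt hb hr2) c
  simp only [mem_Iic] at h
  rw [h, ← volume_closedBall_eq hr]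
  congr 1
  ext y
  simp

/-- The volume of a spherical shell of the torus. -/
lemma volume_flatShell (c : UnitAddTorus (Fin d)) {r ε : ℝ} (hε : 0 ≤ ε) (hr : ε < r)
    (hr2 : r + ε < 1 / 2) :
    volume {x | |flatDist x c - r| ≤ ε}
      = ENNReal.ofReal (ballVol d * ((r + ε) ^ d - (r - ε) ^ d)) := by
  have h := volume_radial (d := d) (B := Icc (r - ε) (r + ε)) measurableSet_Icc
    (fun b hb => lt_of_le_of_lt hb.2 hr2) c
  have e1 : {x | |flatDist x c - r| ≤ ε} = {x | flatDist x c ∈ Icc (r - ε) (r + ε)} := by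
    ext x
    simp only [mem_ofPred_eq, mem_Icc, abs_le]
    constructor <;> rintro ⟨h1, h2⟩ <;> constructor <;> linarith
  have e2 : {y : EuclideanSpace ℝ (Fin d) | ‖y‖ ∈ Icc (r - ε) (r + ε)}
      = Metric.closedBall 0 (r + ε) \ Metric.ball 0 (r - ε) := by
    ext y
    simp only [mem_ofPred_eq, mem_Icc, Set.mem_sdiff, Metric.mem_closedBall, dist_zero_right,
      Metric.mem_ball, not_lt]
    exact and_comm
  have h3 : (r - ε) ^ d ≤ (r + ε) ^ d := pow_le_pow_left₀ (by linarith) (by linarith) d
  rw [e1, h, e2, measure_sdiff (Metric.ball_subset_closedBall.trans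
    (Metric.closedBall_subset_closedBall (by linarith))) measurableSet_ball.nullMeasurableSet
    measure_ball_lt_top.ne, volume_ball_eq (by linarith), volume_closedBall_eq (by linarith),
    mul_sub, ENNReal.ofReal_sub _ (mul_nonneg (ballVol_nonneg d) (by
      have : 0 ≤ r - ε := by linarith
      positivity))]

end Pool.Agent.H.MP_cbfbdc_gt
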