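import Pool.Agent.H.MP_cbfbdc_gt.Torus

set_option autoImplicit false

namespace Pool.Agent.H.MP_cbfbdc_gt

open MeasureTheory Filter Topology Set

variable {d : ℕ}

/-- The union of two closed balls of the flat torus. -/
def twoBalls (c₁ c₂ : UnitAddTorus (Fin d)) (r₁ r₂ : ℝ) : Set (UnitAddTorus (Fin d)) :=
  {x | flatDist x c₁ ≤ r₁} ∪ {x | flatDist x c₂ ≤ r₂}

lemma twoBalls_comm (c₁ c₂ : UnitAddTorus (Fin d)) (r₁ r₂ : ℝ) :
    twoBalls c₁ c₂ r₁ r₂ = twoBalls c₂ c₁ r₂ r₁ := union_comm _ _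

lemma isClosed_flatBall (c : UnitAddTorus (Fin d)) (r : ℝ) : IsClosed {x | flatDist x c ≤ r} :=
  isClosed_le (continuous_flatDist c) continuous_const

lemma isClosed_twoBalls (c₁ c₂ : UnitAddTorus (Fin d)) (r₁ r₂ : ℝ) :
    IsClosed (twoBalls c₁ c₂ r₁ r₂) :=
  (isClosed_flatBall c₁ r₁).union (isClosed_flatBall c₂ r₂)

/-- Local description of the union near the first sphere. -/
lemma exists_local (c₁ c₂ : UnitAddTorus (Fin d)) {r₁ r₂ : ℝ} (_h₁ : 0 < r₁) (h₁' : r₁ < 1 / 2)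
    (h₁₂ : r₁ + r₂ < flatDist c₁ c₂) (x : EuclideanSpace ℝ (Fin d))
    (hx : flatDist (proj x) c₁ = r₁) :
    ∃ p : EuclideanSpace ℝ (Fin d), ‖x - p‖ = r₁ ∧
      ∀ᶠ y in 𝓝 x, (proj y ∈ twoBalls c₁ c₂ r₁ r₂ ↔ ‖y - p‖ ≤ r₁) := by
  obtain ⟨p, hp, hpx⟩ := exists_lift c₁ x
  have hpx' : ∀ i, |x i - p i| ≤ 1 / 2 := fun i => by rw [abs_sub_comm]; exact hpx i
  have hr : ‖x - p‖ = r₁ := by rw [← flatDist_proj_eq hpx', hp, hx]
  refine ⟨p, hr, ?_⟩
  set δ := min (1 / 2 - r₁) (flatDist c₁ c₂ - r₁ - r₂) with hδ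
  have hδpos : 0 < δ := lt_min (by linarith) (by linarith)
  filter_upwards [Metric.ball_mem_nhds x hδpos] with y hy
  rw [Metric.mem_ball, dist_eq_norm] at hy
  have h3 : ‖y - p‖ < r₁ + δ := by
    calc ‖y - p‖ = ‖(y - x) + (x - p)‖ := by congr 1; abel
      _ ≤ ‖y - x‖ + ‖x - p‖ := norm_add_le _ _
      _ < r₁ + δ := by rw [hr]; linarith
  have h4 : flatDist (proj y) c₁ = ‖y - p‖ := by
    rw [← hp]
    refine flatDist_proj_eq_of_norm ?_
    have := min_le_left (1 / 2 - r₁) (flatDist c₁ c₂ - r₁ - r₂)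
    linarith
  have h5 : r₂ < flatDist (proj y) c₂ := by
    have h6 := flatDist_triangle c₁ (proj y) c₂
    rw [flatDist_comm c₁ (proj y), h4] at h6
    have := min_le_right (1 / 2 - r₁) (flatDist c₁ c₂ - r₁ - r₂)
    linarith
  unfold twoBalls
  simp only [mem_union, mem_ofPred_eq, h4]
  constructor
  · rintro (h | h)
    · exact h
    · exact absurd h (not_le.mpr h5)
  · exact Or.inl

/-- Points of the first sphere are not interior. -/
lemma not_mem_interior (c₁ c₂ : UnitAddTorus (Fin d)) {r₁ r₂ : ℝ} (h₁ : 0 < r₁) (h₁' : r₁ < 1 / 2)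
    (h₁₂ : r₁ + r₂ < flatDist c₁ c₂) {z : UnitAddTorus (Fin d)}
    (hz : flatDist z c₁ = r₁) : z ∉ interior (twoBalls c₁ c₂ r₁ r₂) := by
  intro hint
  obtain ⟨x, rfl, -⟩ := exists_lift z 0
  obtain ⟨p, hp, hloc⟩ := exists_local c₁ c₂ h₁ h₁' h₁₂ x hz
  have h2 : ∀ᶠ y in 𝓝 x, proj y ∈ twoBalls c₁ c₂ r₁ r₂ :=
    continuous_proj.continuousAt.eventually_mem (mem_interior_iff_mem_nhds.mp hint)
  have h3 : ∀ᶠ y in 𝓝 x, ‖y - p‖ ≤ r₁ := by
    filter_upwards [h2, hloc] with y hy1 hy2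
    exact hy2.mp hy1
  -- move outwards
  have hcont : Tendsto (fun t : ℝ => p + t • (x - p)) (𝓝[>] 1) (𝓝 x) := by
    have : Continuous fun t : ℝ => p + t • (x - p) := by fun_prop
    have h4 := (this.tendsto 1).mono_left (nhdsWithin_le_nhds (s := Ioi 1))
    simpa using h4
  have h5 := hcont.eventually h3
  have h6 : ∀ᶠ t : ℝ in 𝓝[>] 1, 1 < t := eventually_mem_nhdsWithin
  obtain ⟨t, ht1, ht2⟩ := (h5.and h6).exists
  rw [add_sub_cancel_left, norm_smul, hp, Real.norm_of_nonneg (by linarith)] at ht1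
  nlinarith

lemma frontier_twoBalls (c₁ c₂ : UnitAddTorus (Fin d)) {r₁ r₂ : ℝ} (h₁ : 0 < r₁)
    (h₁' : r₁ < 1 / 2) (h₂ : 0 < r₂) (h₂' : r₂ < 1 / 2) (h₁₂ : r₁ + r₂ < flatDist c₁ c₂) :
    frontier (twoBalls c₁ c₂ r₁ r₂)
      = {x | flatDist x c₁ = r₁} ∪ {x | flatDist x c₂ = r₂} := by
  rw [(isClosed_twoBalls c₁ c₂ r₁ r₂).frontier_eq]
  have hopen : {x | flatDist x c₁ < r₁} ∪ {x | flatDist x c₂ < r₂}
      ⊆ interior (twoBalls c₁ c₂ r₁ r₂) := by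
    refine interior_maximal ?_ ?_
    · rintro x (hx | hx)
      · exact Or.inl (le_of_lt (show flatDist x c₁ < r₁ from hx))
      · exact Or.inr (le_of_lt (show flatDist x c₂ < r₂ from hx))
    · exact (isOpen_lt (continuous_flatDist c₁) continuous_const).union
        (isOpen_lt (continuous_flatDist c₂) continuous_const)
  ext x
  constructor
  · rintro ⟨hx | hx, hx'⟩
    · rcases lt_or_eq_of_le (show flatDist x c₁ ≤ r₁ from hx) with h | h
      · exact absurd (hopen (Or.inl h)) hx'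
      · exact Or.inl h
    · rcases lt_or_eq_of_le (show flatDist x c₂ ≤ r₂ from hx) with h | h
      · exact absurd (hopen (Or.inr h)) hx'
      · exact Or.inr h
  · rintro (hx | hx)
    · refine ⟨Or.inl (le_of_eq hx), ?_⟩
      exact not_mem_interior c₁ c₂ h₁ h₁' h₁₂ hx
    · refine ⟨Or.inr (le_of_eq hx), ?_⟩
      rw [twoBalls_comm]
      exact not_mem_interior c₂ c₁ h₂ h₂' (by rw [flatDist_comm]; linarith) hx

lemma exists_smooth (c₁ c₂ : UnitAddTorus (Fin d)) {r₁ r₂ : ℝ} (h₁ : 0 < r₁) (h₁' : r₁ < 1 / 2)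
    (h₁₂ : r₁ + r₂ < flatDist c₁ c₂) (x : EuclideanSpace ℝ (Fin d))
    (hx : flatDist (proj x) c₁ = r₁) :
    ∃ f : EuclideanSpace ℝ (Fin d) → ℝ, ContDiff ℝ (⊤ : ℕ∞) f ∧ f x = 0 ∧ fderiv ℝ f x ≠ 0 ∧
      ∀ᶠ y in 𝓝 x, (proj y ∈ twoBalls c₁ c₂ r₁ r₂ ↔ f y ≤ 0) := by
  obtain ⟨p, hp, hloc⟩ := exists_local c₁ c₂ h₁ h₁' h₁₂ x hx
  refine ⟨fun y => ‖y - p‖ ^ 2 - r₁ ^ 2, ?_, ?_, ?_, ?_⟩
  · exact ((contDiff_id.sub contDiff_const).norm_sq ℝ).sub contDiff_const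
  · simp [hp]
  · intro h0
    have h2 : HasFDerivAt (fun y : EuclideanSpace ℝ (Fin d) => ‖y - p‖ ^ 2 - r₁ ^ 2)
        (2 • (innerSL ℝ (x - p)).comp (ContinuousLinearMap.id ℝ _)) x := by
      have h3 : HasFDerivAt (fun y : EuclideanSpace ℝ (Fin d) => y - p)
          (ContinuousLinearMap.id ℝ _) x := (hasFDerivAt_id x).sub_const p
      exact (h3.norm_sq).sub_const _
    rw [h2.fderiv] at h0
    have h4 := congrArg (fun L : EuclideanSpace ℝ (Fin d) →L[ℝ] ℝ => L (x - p)) h0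
    simp only [_root_.smul_apply, ContinuousLinearMap.comp_id, innerSL_apply_apply,
      real_inner_self_eq_norm_sq, _root_.zero_apply, hp] at h4
    have : (0 : ℝ) < 2 • r₁ ^ 2 := by simp only [nsmul_eq_mul]; positivity
    linarith
  · filter_upwards [hloc] with y hy
    rw [hy, sub_nonpos, sq_le_sq₀ (norm_nonneg _) h₁.le]

lemma smoothDomain_twoBalls (c₁ c₂ : UnitAddTorus (Fin d)) {r₁ r₂ : ℝ} (h₁ : 0 < r₁)
    (h₁' : r₁ < 1 / 2) (h₂ : 0 < r₂) (h₂' : r₂ < 1 / 2) (h₁₂ : r₁ + r₂ < flatDist c₁ c₂) :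
    SmoothDomain (twoBalls c₁ c₂ r₁ r₂) := by
  refine ⟨(isClosed_twoBalls c₁ c₂ r₁ r₂).isCompact, fun x hx => ?_⟩
  rw [frontier_twoBalls c₁ c₂ h₁ h₁' h₂ h₂' h₁₂] at hx
  rcases hx with hx | hx
  · exact exists_smooth c₁ c₂ h₁ h₁' h₁₂ x hx
  · rw [twoBalls_comm]
    exact exists_smooth c₂ c₁ h₂ h₂' (by rw [flatDist_comm]; linarith) x hx

lemma exists_sphere_point (c : UnitAddTorus (Fin d)) {r ε : ℝ} (hr : 0 < r) (hr' : r < 1 / 2)
    (hε : ε < r) (x : UnitAddTorus (Fin d)) :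
    (∃ y, flatDist y c = r ∧ flatDist x y ≤ ε) ↔ |flatDist x c - r| ≤ ε := by
  constructor
  · rintro ⟨y, hy, hxy⟩
    rw [abs_le]
    have h1 := flatDist_triangle x y c
    have h2 := flatDist_triangle y x c
    rw [flatDist_comm y x] at h2
    constructor <;> linarith
  · intro h
    obtain ⟨q, rfl, -⟩ := exists_lift c 0
    obtain ⟨a, rfl, ha⟩ := exists_lift x q
    have h1 : flatDist (proj a) (proj q) = ‖a - q‖ := flatDist_proj_eq ha
    rw [h1] at h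
    have h2 := abs_le.mp h
    have h3 : 0 < ‖a - q‖ := by linarith [h2.1]
    refine ⟨proj (q + (r / ‖a - q‖) • (a - q)), ?_, ?_⟩
    · have h4 : ‖q + (r / ‖a - q‖) • (a - q) - q‖ = r := by
        rw [add_sub_cancel_left, norm_smul, Real.norm_of_nonneg (by positivity)]
        field_simp
      rw [flatDist_proj_eq_of_norm (by rw [h4]; exact hr'.le), h4]
    · refine (flatDist_proj_le _ _).trans ?_
      have h4 : a - (q + (r / ‖a - q‖) • (a - q)) = (1 - r / ‖a - q‖) • (a - q) := by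
        rw [sub_smul, one_smul]; abel
      rw [h4, norm_smul, Real.norm_eq_abs]
      have h5 : |1 - r / ‖a - q‖| * ‖a - q‖ = |‖a - q‖ - r| := by
        rw [← abs_of_pos h3, ← abs_mul, abs_of_pos h3]
        congr 1
        field_simp
      rw [h5]
      exact h

lemma tendsto_shell (m : ℕ) (r : ℝ) :
    Tendsto (fun ε : ℝ => ((r + ε) ^ m - (r - ε) ^ m) / (2 * ε)) (𝓝[>] 0) (𝓝 (m * r ^ (m - 1))) := by
  have h1 : HasDerivAt (fun ε : ℝ => (r + ε) ^ m - (r - ε) ^ m)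
      (2 * (m * r ^ (m - 1))) 0 := by
    have ha : HasDerivAt (fun ε : ℝ => (r + ε) ^ m) (m * (r + 0) ^ (m - 1) * 1) 0 :=
      ((hasDerivAt_id (0 : ℝ)).const_add r).pow m
    have hb : HasDerivAt (fun ε : ℝ => (r - ε) ^ m) (m * (r - 0) ^ (m - 1) * (-1)) 0 :=
      ((hasDerivAt_id (0 : ℝ)).const_sub r).pow m
    have hc := ha.sub hb
    convert! hc using 1
    simp; ring
  have h2 := h1.tendsto_slope_zero_right
  have h3 : Tendsto (fun ε : ℝ => (ε⁻¹ • (((r + (0 + ε)) ^ m - (r - (0 + ε)) ^ m)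
      - ((r + 0) ^ m - (r - 0) ^ m))) / 2) (𝓝[>] 0) (𝓝 ((2 * (m * r ^ (m - 1))) / 2)) :=
    h2.div_const 2
  have e : (2 * (m * r ^ (m - 1))) / 2 = (m : ℝ) * r ^ (m - 1) := by ring
  rw [e] at h3
  refine h3.congr fun ε => ?_
  simp only [zero_add, add_zero, sub_zero, sub_self, smul_eq_mul]
  rw [mul_comm 2 ε, ← div_div]
  ring

lemma hasBoundaryVolume_twoBalls (c₁ c₂ : UnitAddTorus (Fin d)) {r₁ r₂ : ℝ} (h₁ : 0 < r₁)
    (h₁' : r₁ < 1 / 2) (h₂ : 0 < r₂) (h₂' : r₂ < 1 / 2) (h₁₂ : r₁ + r₂ < flatDist c₁ c₂) :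
    HasBoundaryVolume (twoBalls c₁ c₂ r₁ r₂)
      (d * ballVol d * (r₁ ^ (d - 1) + r₂ ^ (d - 1))) := by
  unfold HasBoundaryVolume
  set δ := min (min r₁ r₂) (min (min (1 / 2 - r₁) (1 / 2 - r₂)) ((flatDist c₁ c₂ - r₁ - r₂) / 2))
    with hδ
  have hδpos : 0 < δ := by
    refine lt_min (lt_min h₁ h₂) (lt_min (lt_min ?_ ?_) ?_) <;> linarith
  have hlim : Tendsto (fun ε : ℝ => ballVol d * (((r₁ + ε) ^ d - (r₁ - ε) ^ d) / (2 * ε))
      + ballVol d * (((r₂ + ε) ^ d - (r₂ - ε) ^ d) / (2 * ε))) (𝓝[>] 0)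
      (𝓝 (d * ballVol d * (r₁ ^ (d - 1) + r₂ ^ (d - 1)))) := by
    have h := ((tendsto_shell d r₁).const_mul (ballVol d)).add
      ((tendsto_shell d r₂).const_mul (ballVol d))
    have e : ballVol d * (d * r₁ ^ (d - 1)) + ballVol d * (d * r₂ ^ (d - 1))
        = d * ballVol d * (r₁ ^ (d - 1) + r₂ ^ (d - 1)) := by ring
    rwa [e] at h
  refine hlim.congr' ?_
  have hev : ∀ᶠ ε : ℝ in 𝓝[>] 0, ε < δ :=
    nhdsWithin_le_nhds (Iio_mem_nhds hδpos)
  filter_upwards [hev, eventually_mem_nhdsWithin] with ε hε hε0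
  rw [mem_Ioi] at hε0
  have b1 : ε < r₁ := lt_of_lt_of_le hε ((min_le_left _ _).trans (min_le_left _ _))
  have b2 : ε < r₂ := lt_of_lt_of_le hε ((min_le_left _ _).trans (min_le_right _ _))
  have b3 : ε < 1 / 2 - r₁ := lt_of_lt_of_le hε
    ((min_le_right _ _).trans ((min_le_left _ _).trans (min_le_left _ _)))
  have b4 : ε < 1 / 2 - r₂ := lt_of_lt_of_le hε
    ((min_le_right _ _).trans ((min_le_left _ _).trans (min_le_right _ _)))
  have b5 : ε < (flatDist c₁ c₂ - r₁ - r₂) / 2 := lt_of_lt_of_le hε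
    ((min_le_right _ _).trans (min_le_right _ _))
  have e1 : {x | ∃ y ∈ frontier (twoBalls c₁ c₂ r₁ r₂), flatDist x y ≤ ε}
      = {x | |flatDist x c₁ - r₁| ≤ ε} ∪ {x | |flatDist x c₂ - r₂| ≤ ε} := by
    rw [frontier_twoBalls c₁ c₂ h₁ h₁' h₂ h₂' h₁₂]
    ext x
    simp only [mem_ofPred_eq, mem_union]
    rw [← exists_sphere_point c₁ h₁ h₁' b1 x, ← exists_sphere_point c₂ h₂ h₂' b2 x]
    constructor
    · rintro ⟨y, hy | hy, hxy⟩
      · exact Or.inl ⟨y, hy, hxy⟩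
      · exact Or.inr ⟨y, hy, hxy⟩
    · rintro (⟨y, hy, hxy⟩ | ⟨y, hy, hxy⟩)
      · exact ⟨y, Or.inl hy, hxy⟩
      · exact ⟨y, Or.inr hy, hxy⟩
  have hdisj : Disjoint {x | |flatDist x c₁ - r₁| ≤ ε} {x | |flatDist x c₂ - r₂| ≤ ε} := by
    rw [Set.disjoint_left]
    intro x hx1 hx2
    simp only [mem_ofPred_eq, abs_le] at hx1 hx2
    have h6 := flatDist_triangle c₁ x c₂
    rw [flatDist_comm c₁ x] at h6
    linarith [hx1.2, hx2.2]
  have hmeas : MeasurableSet {x | |flatDist x c₂ - r₂| ≤ ε} := by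
    have : Continuous fun x => |flatDist x c₂ - r₂| :=
      ((continuous_flatDist c₂).sub continuous_const).abs
    exact (isClosed_le this continuous_const).measurableSet
  have p1 : 0 ≤ (r₁ + ε) ^ d - (r₁ - ε) ^ d :=
    sub_nonneg.mpr (pow_le_pow_left₀ (by linarith) (by linarith) d)
  have p2 : 0 ≤ (r₂ + ε) ^ d - (r₂ - ε) ^ d :=
    sub_nonneg.mpr (pow_le_pow_left₀ (by linarith) (by linarith) d)
  rw [e1, measure_union hdisj hmeas, volume_flatShell c₁ hε0.le b1 (by linarith),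
    volume_flatShell c₂ hε0.le b2 (by linarith), ENNReal.toReal_add ENNReal.ofReal_ne_top
    ENNReal.ofReal_ne_top, ENNReal.toReal_ofReal (mul_nonneg (ballVol_nonneg d) p1),
    ENNReal.toReal_ofReal (mul_nonneg (ballVol_nonneg d) p2), add_div, mul_div_assoc,
    mul_div_assoc]

lemma volume_twoBalls (c₁ c₂ : UnitAddTorus (Fin d)) {r₁ r₂ : ℝ} (h₁ : 0 < r₁)
    (h₁' : r₁ < 1 / 2) (h₂ : 0 < r₂) (h₂' : r₂ < 1 / 2) (h₁₂ : r₁ + r₂ < flatDist c₁ c₂) :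
    volume (twoBalls c₁ c₂ r₁ r₂) = ENNReal.ofReal (ballVol d * (r₁ ^ d + r₂ ^ d)) := by
  have hdisj : Disjoint {x | flatDist x c₁ ≤ r₁} {x | flatDist x c₂ ≤ r₂} := by
    rw [Set.disjoint_left]
    intro x hx1 hx2
    simp only [mem_ofPred_eq] at hx1 hx2
    have h6 := flatDist_triangle c₁ x c₂
    rw [flatDist_comm c₁ x] at h6
    linarith
  unfold twoBalls
  rw [measure_union hdisj (isClosed_flatBall c₂ r₂).measurableSet, volume_flatBall c₁ h₁.le h₁',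
    volume_flatBall c₂ h₂.le h₂', mul_add, ENNReal.ofReal_add
    (mul_nonneg (ballVol_nonneg d) (by positivity)) (mul_nonneg (ballVol_nonneg d) (by positivity))]

/-- In dimension at least 4 there are two points of the torus at distance at least 1. -/
lemma exists_far (hd : 5 ≤ d) : ∃ c₁ c₂ : UnitAddTorus (Fin d), 1 < flatDist c₁ c₂ := by
  refine ⟨proj (WithLp.toLp 2 fun _ => 1 / 2), proj 0, ?_⟩
  rw [flatDist_proj_eq]
  · rw [EuclideanSpace.norm_eq, Real.lt_sqrt zero_le_one]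
    have : ∀ i : Fin d, ‖(((WithLp.toLp 2 fun _ => (1 / 2 : ℝ)) : EuclideanSpace ℝ (Fin d))
        - (0 : EuclideanSpace ℝ (Fin d))) i‖ ^ 2 = 1 / 4 := by
      intro i
      rw [sub_zero]
      change ‖(1 / 2 : ℝ)‖ ^ 2 = 1 / 4
      norm_num
    simp only [this, Finset.sum_const, Finset.card_univ, Fintype.card_fin, nsmul_eq_mul]
    have h5 : (5 : ℝ) ≤ d := by exact_mod_cast hd
    linarith
  · intro i
    change |(1 / 2 : ℝ) - 0| ≤ 1 / 2
    norm_num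

end Pool.Agent.H.MP_cbfbdc_gt
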